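import Mathlib

set_option autoImplicit false

namespace Pool.Agent.Results.MP_63bb40_co.ZeroNbhd

open Finset

/-- the vertices left after deleting `N[X]` and `Y` -/
def Rest {V : Type} (G : SimpleGraph V) (X Y : Finset V) : Set V :=
  {v | (∀ x ∈ X, v ≠ x ∧ ¬ G.Adj x v) ∧ v ∉ Y}

/-- `(k,m)`-robust: what is left is connected and has two distinct non-adjacent vertices -/
def Robust {V : Type} (k m : ℕ) (G : SimpleGraph V) : Prop :=
  ∀ X Y : Finset V, X.card ≤ k → Y.card ≤ m →
    (G.induce (Rest G X Y)).Connected ∧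
      ∃ u ∈ Rest G X Y, ∃ v ∈ Rest G X Y, u ≠ v ∧ ¬ G.Adj u v

lemma lower (m p : ℕ) (G : SimpleGraph (Fin p)) (h : Robust 0 m G) :
    ∃ r, p = m + 1 + r ∧ p ≤ r * r := by
  classical
  -- cliques are small
  have hcl : ∀ K : Finset (Fin p), G.IsClique (K : Set (Fin p)) → K.card + m + 1 ≤ p := by
    intro K hK
    by_contra hc
    have hcard : (Kᶜ).card ≤ m := by
      rw [Finset.card_compl, Fintype.card_fin]; omega
    obtain ⟨-, u, hu, v, hv, huv, hadj⟩ := h ∅ Kᶜ (by simp) hcard
    have hu' : u ∈ K := by simpa [Rest] using hu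
    have hv' : v ∈ K := by simpa [Rest] using hv
    exact hadj (hK hu' hv' huv)
  -- degrees are large
  have hdeg : ∀ v : Fin p, (univ.filter fun w => ¬ G.Adj v w).card + m + 1 ≤ p := by
    intro v
    by_contra hc
    have hsum := Finset.card_filter_add_card_filter_not (s := (univ : Finset (Fin p)))
      (fun w => G.Adj v w)
    rw [Finset.card_univ, Fintype.card_fin] at hsum
    obtain ⟨hcon, a, ha, b, hb, hab, -⟩ := h ∅ (univ.filter fun w => G.Adj v w) (by simp) (by omega)
    have hv : v ∈ Rest G ∅ (univ.filter fun w => G.Adj v w) := by simp [Rest]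
    have key : ∀ w, ∀ hw : w ∈ Rest G ∅ (univ.filter fun w => G.Adj v w), w = v := by
      intro w hw
      obtain ⟨W⟩ := hcon.preconnected ⟨v, hv⟩ ⟨w, hw⟩
      cases W with
      | nil => rfl
      | cons hadj _ =>
        rename_i z _
        have hz := z.2
        have : G.Adj v z.1 := hadj
        simp [Rest, this] at hz
    exact hab ((key a ha).trans (key b hb).symm)
  have h0 := hcl ∅ (by simp)
  obtain ⟨r, hr⟩ : ∃ r, p = m + 1 + r := ⟨p - (m + 1), by simp at h0; omega⟩
  refine ⟨r, hr, ?_⟩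
  obtain ⟨K, hK, hmax⟩ := Finset.exists_max_image
    ((univ : Finset (Finset (Fin p))).filter fun K : Finset (Fin p) => G.IsClique (K : Set (Fin p)))
    Finset.card
    ⟨∅, by simp⟩
  have hK' : G.IsClique (K : Set (Fin p)) := (Finset.mem_filter.1 hK).2
  have hcov : (univ : Finset (Fin p)) ⊆ K.biUnion fun v => univ.filter fun w => ¬ G.Adj v w := by
    intro w _
    by_contra hc
    simp only [Finset.mem_biUnion, Finset.mem_filter, Finset.mem_univ, true_and, not_exists,
      not_and, not_not] at hc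
    have hw : w ∉ K := fun hw => G.irrefl (hc w hw)
    have hi : G.IsClique ((insert w K : Finset (Fin p)) : Set (Fin p)) := by
      rw [Finset.coe_insert]
      exact hK'.insert fun b hb _ => (hc b hb).symm
    have := hmax _ (Finset.mem_filter.2 ⟨Finset.mem_univ _, hi⟩)
    rw [Finset.card_insert_of_notMem hw] at this
    omega
  have h1 := Finset.card_le_card hcov
  rw [Finset.card_univ, Fintype.card_fin] at h1
  have h2 := Finset.card_biUnion_le_card_mul K (fun v => univ.filter fun w => ¬ G.Adj v w) r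
    (fun v _ => by have := hdeg v; omega)
  have h3 : K.card ≤ r := by have := hcl K hK'; omega
  calc p ≤ K.card * r := h1.trans h2
    _ ≤ r * r := Nat.mul_le_mul_right r h3

/-- complete multipartite graph with classes given by residues -/
def mp (p r : ℕ) : SimpleGraph (Fin p) where
  Adj u v := (u : ℕ) % r ≠ (v : ℕ) % r
  symm := ⟨fun _ _ h => h.symm⟩
  loopless := ⟨fun _ h => h rfl⟩

lemma upper (m r : ℕ) (hr : m + 1 + r ≤ r * r) : Robust 0 m (mp (m + 1 + r) r) := by
  classical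
  intro X Y hX hY
  obtain rfl : X = ∅ := Finset.card_eq_zero.1 (by omega)
  have hr0 : 0 < r := by
    rcases Nat.eq_zero_or_pos r with rfl | h
    · omega
    · exact h
  have hmem : ∀ v, v ∈ Rest (mp (m + 1 + r) r) ∅ Y ↔ v ∈ Yᶜ := by simp [Rest]
  have hcard : (Finset.range r).card < (Yᶜ).card := by
    rw [Finset.card_compl, Fintype.card_fin, Finset.card_range]; omega
  obtain ⟨a, ha, b, hb, hab, e⟩ := Finset.exists_ne_map_eq_of_card_lt_of_maps_to hcard
    (f := fun v : Fin (m + 1 + r) => (v : ℕ) % r)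
    (fun v _ => by simpa using Nat.mod_lt _ hr0)
  obtain ⟨c, hc, d, hd, hcd, e'⟩ := Finset.exists_ne_map_eq_of_card_lt_of_maps_to hcard
    (f := fun v : Fin (m + 1 + r) => (v : ℕ) / r)
    (fun v _ => by
      have := v.2
      simpa using Nat.div_lt_of_lt_mul (by omega))
  have hcd' : (c : ℕ) % r ≠ (d : ℕ) % r := by
    intro h
    apply hcd
    apply Fin.ext
    have e2 : (c : ℕ) / r = (d : ℕ) / r := e'
    rw [← Nat.div_add_mod (c : ℕ) r, ← Nat.div_add_mod (d : ℕ) r, h, e2]
  refine ⟨?_, a, (hmem a).2 ha, b, (hmem b).2 hb, hab, fun h => h e⟩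
  haveI : Nonempty (Rest (mp (m + 1 + r) r) ∅ Y) := ⟨⟨a, (hmem a).2 ha⟩⟩
  refine ⟨fun u v => ?_⟩
  by_cases huv : (u.1 : ℕ) % r = (v.1 : ℕ) % r
  · by_cases huc : (u.1 : ℕ) % r = (c : ℕ) % r
    · have h1 : ((mp (m + 1 + r) r).induce (Rest _ ∅ Y)).Adj u ⟨d, (hmem d).2 hd⟩ := by
        show (u.1 : ℕ) % r ≠ (d : ℕ) % r
        omega
      have h2 : ((mp (m + 1 + r) r).induce (Rest _ ∅ Y)).Adj ⟨d, (hmem d).2 hd⟩ v := by
        show (d : ℕ) % r ≠ (v.1 : ℕ) % r
        omega
      exact h1.reachable.trans h2.reachable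
    · have h1 : ((mp (m + 1 + r) r).induce (Rest _ ∅ Y)).Adj u ⟨c, (hmem c).2 hc⟩ := huc
      have h2 : ((mp (m + 1 + r) r).induce (Rest _ ∅ Y)).Adj ⟨c, (hmem c).2 hc⟩ v := by
        show (c : ℕ) % r ≠ (v.1 : ℕ) % r
        omega
      exact h1.reachable.trans h2.reachable
  · exact SimpleGraph.Adj.reachable (G := (mp (m + 1 + r) r).induce (Rest _ ∅ Y)) huv

theorem result : ∀ m r : ℕ, IsLeast {t : ℕ | m + 1 + t ≤ t * t} r →
    IsLeast {p : ℕ | ∃ G : SimpleGraph (Fin p), Robust 0 m G} (m + 1 + r) := by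
  intro m r hr
  refine ⟨⟨_, upper m r hr.1⟩, ?_⟩
  rintro p ⟨G, hG⟩
  obtain ⟨t, h1, h2⟩ := lower m p G hG
  have := hr.2 (show m + 1 + t ≤ t * t by omega)
  omega

end Pool.Agent.Results.MP_63bb40_co.ZeroNbhd
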